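import Pool.Agent.Lib_helper15.GenInf.Polish

/-!
Question Q2: the generic automorphism of an infinite, sigma-finite, atomless standard measure
space embeds in a flow.

Definitions (file `Pool/Agent/Lib_helper15/GenInf/Defs.lean`): `GenInf.Aut μ` is the group of
invertible measure-preserving transformations modulo null sets, with the weak topology
(`GenInf.Aut.tendsto_mk_iff` proves that convergence is as in the problem, and `Aut μ` is proved to
be a Polish group).
-/

set_option autoImplicit false

open MeasureTheory

namespace Pool.Agent.Results.MP_ba7837_an.FlowEmbedding

open GenInf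

/-- For every standard Borel space with an infinite, sigma-finite, atomless measure, the set of
`T ∈ Aut μ` which embed in a flow contains a dense `G_δ` set. -/
theorem result :
    ∀ (X : Type) [MeasurableSpace X] [StandardBorelSpace X] (μ : Measure X) [SigmaFinite μ]
      [NullSingletonClass μ], μ Set.univ = ⊤ →
      ∃ R : Set (Aut μ), IsGδ R ∧ Dense R ∧ ∀ T ∈ R, EmbedsInFlow T := by
  intro X _ _ μ _ _ hμ
  exact generic_embedsInFlow hμ

end Pool.Agent.Results.MP_ba7837_an.FlowEmbedding
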